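import Mathlib
import Pool.Agent.H852.QP.Hom
import Pool.Agent.H852.NB.Count

set_option autoImplicit false

/-!
# Non-speciality in ALL degrees for almost all near-uniform multiplicity vectors

A vector of `n` multiplicities is near-uniform if it takes two consecutive values `m`, `m + 1`;
up to the order it is determined by its sum `W`. For every `ε > 0`, all large `n` and every
interval of at least `√n` integers, all but the proportion `ε` of the integers `W` of the interval
have the following property: all near-uniform systems with multiplicities of sum `W`, and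
`1 ≤ m ≤ exp ((log n) ^ 2 / 64)`, at general points are non-special, in every degree.
-/

namespace Pool.Agent.Results.MP_d3128a_ag.MostNearUniform

open MvPolynomial

/-- Forms of degree `d` vanishing to order at least `w i` at the points `(P i 0 : P i 1 : 1)`. -/
noncomputable def forms {n : ℕ} (P : Fin n → Fin 2 → ℂ) (d : ℕ) (w : Fin n → ℕ) :
    Submodule ℂ (MvPolynomial (Fin 3) ℂ) :=
  homogeneousSubmodule (Fin 3) ℂ d ⊓
    Submodule.restrictScalars ℂ
      (⨅ i : Fin n, (Ideal.span {X 0 - C (P i 0) * X 2, X 1 - C (P i 1) * X 2} :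
        Ideal (MvPolynomial (Fin 3) ℂ)) ^ (w i))

/-- For general points (one nonempty open set for all degrees) the systems of curves with the
multiplicities `w` are non-special in every degree. -/
def NonSpecial {n : ℕ} (w : Fin n → ℕ) : Prop :=
  ∃ F : MvPolynomial (Fin n × Fin 2) ℂ, F ≠ 0 ∧ ∀ P : Fin n → Fin 2 → ℂ,
    MvPolynomial.eval (fun ij : Fin n × Fin 2 => P ij.1 ij.2) F ≠ 0 →
    ∀ d : ℕ, (Module.finrank ℂ ↥(forms P d w) : ℤ) - 1 =
      max (((d + 2).choose 2 : ℤ) - 1 - ∑ i, ((w i + 1).choose 2 : ℤ)) (-1)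

/-- All near-uniform vectors of sum `W` (with `1 ≤ m ≤ exp ((log n) ^ 2 / 64)`) are non-special in
every degree. -/
def Good (n W : ℕ) : Prop :=
  ∀ m : ℕ, 0 < m → (m : ℝ) ≤ Real.exp (Real.log n ^ 2 / 64) →
    ∀ w : Fin n → ℕ, (∀ i, w i = m ∨ w i = m + 1) → ∑ i, w i = W → NonSpecial w

theorem result (ε : ℝ) (hε : 0 < ε) :
    ∃ N : ℕ, ∀ n : ℕ, N ≤ n → ∀ A L : ℕ, Real.sqrt n ≤ L →
      (Set.ncard {W : ℕ | A ≤ W ∧ W < A + L ∧ ¬ Good n W} : ℝ) ≤ ε * L := by
  classical
  obtain ⟨η, hη⟩ : ∃ η, η = min (ε / 6) 1 := ⟨_, rfl⟩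
  have hη0 : 0 < η := by
    rw [hη]
    exact lt_min (by positivity) one_pos
  have hη1 : η ≤ 1 := by rw [hη]; exact min_le_right _ _
  have hη6 : 6 * η ≤ ε := by
    have : η ≤ ε / 6 := by rw [hη]; exact min_le_left _ _
    linarith
  obtain ⟨N, -, hN⟩ := Pool.Agent.H852.QP.near_uniformQ hη0
  obtain ⟨N', hN'⟩ := exists_nat_ge ((1 / η) ^ 2)
  refine ⟨max N N', fun n hn A L hL => ?_⟩
  have hn1 : N ≤ n := (le_max_left _ _).trans hn
  have hn2 : N' ≤ n := (le_max_right _ _).trans hn
  have hs : 1 / η ≤ Real.sqrt n := by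
    refine Real.le_sqrt_of_sq_le (hN'.trans ?_)
    exact_mod_cast hn2
  have hgood : ∀ W : ℕ, ¬ Good n W →
      ∃ d : ℕ, |2 * (d : ℝ) + 3 - Real.sqrt n - 2 * (W : ℝ) / Real.sqrt n| < η := by
    intro W hW
    by_contra hcon
    push Not at hcon
    apply hW
    intro m hm hmX w hw hsum
    obtain ⟨F, hF, hF'⟩ := hN ℂ n hn1 m hm hmX w hw
    refine ⟨F.map (algebraMap ℚ ℂ), fun h0 => hF ?_, fun P hP d => ?_⟩
    · exact MvPolynomial.map_injective (algebraMap ℚ ℂ) (algebraMap ℚ ℂ).injective
        (h0.trans (map_zero _).symm)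
    · rw [MvPolynomial.eval_map] at hP
      have hsumR : (∑ i, (w i : ℝ)) = (W : ℝ) := by
        rw [← hsum]
        push_cast
        rfl
      have h1 := hF' P hP d (by
        rw [hsumR]
        exact hcon d)
      unfold Pool.Agent.H932R3.ExpDim at h1
      unfold forms
      rw [h1]
      have e : ∑ i, ((w i + 1).choose 2 : ℤ) = ((∑ i, (w i + 1).choose 2 : ℕ) : ℤ) := by
        push_cast
        rfl
      rw [e]
      omega
  have hset : {W : ℕ | A ≤ W ∧ W < A + L ∧ ¬ Good n W} =
      ↑((Finset.Ico A (A + L)).filter fun W => ¬ Good n W) := by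
    ext W
    simp only [Set.mem_setOf_eq, Finset.coe_filter, Finset.mem_Ico, and_assoc]
  rw [hset, Set.ncard_coe_finset]
  have hfin : (((Finset.Ico A (A + L)).filter fun W => ¬ Good n W).card : ℝ) ≤ 6 * η * L :=
    Pool.Agent.H852.NB.count_bad (A := A) hη0 hη1 hs hL
      (fun W hW => Finset.mem_Ico.1 (Finset.mem_filter.1 hW).1)
      (fun W hW => hgood W (Finset.mem_filter.1 hW).2)
  exact hfin.trans (mul_le_mul_of_nonneg_right hη6 (Nat.cast_nonneg L))

end Pool.Agent.Results.MP_d3128a_ag.MostNearUniform
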