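import Mathlib
import Pool.Agent.H713R3.PI.Assemble
import Pool.Agent.H713R3.PI.Grid
import Pool.Agent.H713R3.PI.Rules
import Pool.Agent.H713R3.PI.Dim

set_option autoImplicit false

/-!
# Non-speciality of all plane linear systems with small multiplicities

Let `0 < ε ≤ 1`. For every number `n` of general points and all multiplicities `w i` that are small
compared with the degree `d` (at most `ε ^ 2 d / 1000`, up to a constant), the linear system of
curves of degree `d` with multiplicities `w i` is non-special if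
`∑ (w i + 1) ^ 2 ≤ (1 - ε) (d + 2) ^ 2` or `d ^ 2 < (1 - ε) ∑ w i ^ 2`.
-/

namespace Pool.Agent.Results.MP_d3128a_ag.SmallMultiplicities

theorem result (ε : ℝ) (hε : 0 < ε) (hε1 : ε ≤ 1) (n d : ℕ) (w : Fin n → ℕ)
    (h : ((∀ i, 0 < w i → 1000 * ((w i : ℝ) + 1) ≤ ε ^ 2 * (d + 2)) ∧
        ∑ i ∈ Finset.univ.filter (fun i => 0 < w i), ((w i : ℝ) + 1) ^ 2 ≤
          (1 - ε) * ((d : ℝ) + 2) ^ 2) ∨
      ((∀ i, 1000 * (w i : ℝ) ≤ ε ^ 2 * d) ∧ (d : ℝ) ^ 2 < (1 - ε) * ∑ i, (w i : ℝ) ^ 2)) :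
    ∃ F : MvPolynomial (Fin n × Fin 2) ℂ, F ≠ 0 ∧
      ∀ P : Fin n → Fin 2 → ℂ,
        MvPolynomial.eval (fun ij : Fin n × Fin 2 => P ij.1 ij.2) F ≠ 0 →
          Module.finrank ℂ
            ↥(MvPolynomial.homogeneousSubmodule (Fin 3) ℂ d ⊓
              Submodule.restrictScalars ℂ
                (⨅ i : Fin n,
                  (Ideal.span
                    ({MvPolynomial.X 0 - MvPolynomial.C (P i 0) * MvPolynomial.X 2,
                      MvPolynomial.X 1 - MvPolynomial.C (P i 1) * MvPolynomial.X 2} :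
                      Set (MvPolynomial (Fin 3) ℂ))) ^ (w i)))
          = Nat.choose (d + 2) 2 - ∑ i, Nat.choose (w i + 1) 2 := by
  obtain ⟨F, hF, hF'⟩ := H713R3.PI.small_expDim (K := ℂ) H713R3.PI.taskRules H713R3.PI.taskGrid
    H713R3.PI.Dim.taskDim hε hε1 h
  exact ⟨F, hF, fun P hP => hF' P hP⟩

end Pool.Agent.Results.MP_d3128a_ag.SmallMultiplicities
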